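import Pool.Agent.W285.UB.Stm
import Pool.Agent.Helper259.AbsHt

set_option autoImplicit false

namespace Pool.Agent.W389.UB

open Pool.Agent.W285.UB NumberField Height Module Pool.Agent.Helper259.AbsHt

lemma h_pow {ι : Type} [Finite ι] (x : ι → Qbar) (n : ℕ) :
    absLogHeight (fun i => x i ^ n) = n * absLogHeight x := by
  obtain ⟨L, hL, hmem⟩ := exists_nf (Set.range x) (Set.finite_range x)
  obtain ⟨y, rfl⟩ := lift_vec L x fun i => hmem _ ⟨i, rfl⟩
  have e : (fun i => (y i : Qbar) ^ n) = fun i => (((y ^ n) i : L) : Qbar) := by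
    funext i
    simp
  rw [e, val_eq, val_eq, logHeight_pow]
  ring

lemma prod_step (n i : ℕ) (hi : i ≤ n) (x y : Qbar) :
    ∏ a : Fin n, (if (a : ℕ) < i then x else y) = x ^ i * y ^ (n - i) := by
  have h1 : ∀ m : ℕ, ∏ a ∈ Finset.range m, (if a < i then x else y) =
      x ^ (min m i) * y ^ (m - i) := by
    intro m
    induction m with
    | zero => simp
    | succ m ih =>
      rw [Finset.prod_range_succ, ih]
      by_cases h : m < i
      · rw [if_pos h, Nat.min_eq_left h.le, Nat.min_eq_left h, Nat.sub_eq_zero_of_le h.le,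
          Nat.sub_eq_zero_of_le h, Nat.succ_eq_add_one, pow_succ]
        ring
      · have h' : i ≤ m := not_lt.1 h
        rw [if_neg h, Nat.min_eq_right h', Nat.min_eq_right (h'.trans (Nat.le_succ m)),
          Nat.succ_sub h', Nat.succ_eq_add_one, pow_succ]
        ring
  rw [Finset.prod_range (fun a => if a < i then x else y) |>.symm, h1, Nat.min_eq_right hi]

lemma h_vero (n : ℕ) (v : Fin 2 → Qbar) :
    absLogHeight (fun i : Fin (n + 1) => v 0 ^ (i : ℕ) * v 1 ^ (n - i)) ≤ n * absLogHeight v := by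
  rw [← absLogHeight_veronese n v]
  have h := absLogHeight_comp_le (fun (i : Fin (n + 1)) (a : Fin n) =>
    if (a : ℕ) < i then (0 : Fin 2) else 1) (fun I : Fin n → Fin 2 => ∏ a, v (I a))
  refine le_trans (le_of_eq ?_) h
  congr 1
  funext i
  simp only [Function.comp]
  rw [← prod_step n i (by omega) (v 0) (v 1)]
  refine Finset.prod_congr rfl fun a _ => ?_
  split_ifs <;> rfl

theorem low : S_HINT → S_SYL → S_LOW := by
  intro hH hS d hd
  obtain ⟨n, rfl⟩ : ∃ n, d = n + 1 := ⟨d - 1, by omega⟩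
  obtain ⟨C0, hC0, hsyl⟩ := hS (n + 1) hd
  refine ⟨2 * (n + 1) * C0, by nlinarith [(Nat.cast_nonneg n : (0 : ℝ) ≤ n)], ?_⟩
  intro K _ _ ι B hB φ hφ hcom v hv
  obtain ⟨R, hR, A, hA, hid⟩ := hsyl K ι B hB φ hφ hcom
  have e1 : 2 * (n + 1) - 1 = 2 * n + 1 := by omega
  rw [e1] at hA hid ⊢
  set w := pval (io ι) φ v with hw
  have hw0 : w ≠ 0 := fun h => hv (hcom v h)
  have hinj : Function.Injective (io ι) := by
    intro a b hab
    have h1 : ι (algebraMap (𝓞 K) K a) = ι (algebraMap (𝓞 K) K b) := hab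
    exact RingOfIntegers.coe_injective (ι.injective h1)
  have hR0 : io ι R ≠ 0 := fun h => hR (hinj (by rw [h, map_zero]))
  -- left hand side
  have h1 : absLogHeight (fun k : Fin 2 => io ι R * v k ^ (2 * n + 1)) =
      (2 * n + 1 : ℕ) * absLogHeight v := by
    rw [← h_pow v (2 * n + 1), ← absLogHeight_smul (fun i => v i ^ (2 * n + 1)) hR0]
    rfl
  -- right hand side
  let x : Fin (n + 1) × Fin 2 → Qbar := fun p => (v 0 ^ (p.1 : ℕ) * v 1 ^ (n - p.1)) * w p.2
  let M : Fin 2 × (Fin (n + 1) × Fin 2) → Qbar := fun q => io ι (A q.1 q.2.2 q.2.1)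
  have h2 : (fun k : Fin 2 => io ι R * v k ^ (2 * n + 1)) = fun k => ∑ p, M (k, p) * x p := by
    funext k
    rw [hid v k, Fintype.sum_prod_type, Finset.sum_comm]
    refine Finset.sum_congr rfl fun a _ => ?_
    rw [Finset.sum_mul]
    refine Finset.sum_congr rfl fun i _ => ?_
    show _ = io ι (A k a i) * ((v 0 ^ (i : ℕ) * v 1 ^ (n - i)) * w a)
    have : n + 1 - 1 - (i : ℕ) = n - i := by omega
    rw [this, hw]
    unfold pval
    ring
  have h3 := absLogHeight_linear M x
  rw [← h2, h1] at h3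
  have h4 : absLogHeight M ≤ Real.log (C0 * B ^ (2 * n + 1)) :=
    hH K ι (Fin 2 × (Fin (n + 1) × Fin 2)) (fun q => A q.1 q.2.2 q.2.1) _
      (by nlinarith [one_le_pow₀ hB (n := 2 * n + 1)]) (fun q => hA _ _ _)
  have h5 : absLogHeight x ≤ n * absLogHeight v + absLogHeight w := by
    have h6 : (fun i : Fin (n + 1) => v 0 ^ (i : ℕ) * v 1 ^ (n - i)) ≠ 0 := by
      intro h
      apply hv
      have h7 := congrFun h 0
      have h8 := congrFun h (Fin.last n)
      simp at h7 h8
      funext k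
      fin_cases k
      · exact h8.1
      · exact h7.1
    have h7 := absLogHeight_segre h6 hw0
    have h8 : absLogHeight x = absLogHeight (fun a : Fin (n + 1) × Fin 2 =>
      (fun i : Fin (n + 1) => v 0 ^ (i : ℕ) * v 1 ^ (n - i)) a.1 * w a.2) := rfl
    rw [h8, h7]
    have := h_vero n v
    linarith
  have hcard : (Nat.card (Fin (n + 1) × Fin 2) : ℝ) = 2 * (n + 1) := by
    simp
    ring
  rw [hcard] at h3
  have hBp : 0 < B ^ (2 * n + 1) := by positivity
  have h6 : ((n + 1 : ℕ) : ℝ) * absLogHeight v ≤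
      Real.log (2 * (n + 1) * C0 * B ^ (2 * n + 1)) + absLogHeight w := by
    have h7 : Real.log (2 * (n + 1) * C0 * B ^ (2 * n + 1)) =
        Real.log (2 * (n + 1)) + Real.log (C0 * B ^ (2 * n + 1)) := by
      rw [mul_assoc, Real.log_mul (by positivity) (by positivity)]
    rw [h7]
    push_cast at h3 ⊢
    linarith
  unfold ht
  rw [← Real.exp_nat_mul]
  calc Real.exp (((n + 1 : ℕ) : ℝ) * absLogHeight v)
      ≤ Real.exp (Real.log (2 * (n + 1) * C0 * B ^ (2 * n + 1)) + absLogHeight w) :=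
        Real.exp_le_exp.2 h6
    _ = 2 * (n + 1) * C0 * B ^ (2 * n + 1) * Real.exp (absLogHeight w) := by
        rw [Real.exp_add, Real.exp_log (by positivity)]

end Pool.Agent.W389.UB
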